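import Pool.Agent.Work.MP_46fa68_85t.DC40_20

/-!
# MP_46fa68_co: checks for S_41, t = 20

The data were found numerically (helper12's solver), rounded and repaired in exact arithmetic.
-/

set_option autoImplicit false

namespace Pool.JM.Tab85

open Pool.JM.Pack

theorem cC40_20 : cL W40_20 169 81 21 19 1118939184 (Nat.mul U40_20 3542235) (Nat.mul U40_20 0)
    (Nat.mul U40_20 4176460) tC40_20 = true := by
  decide +kernel


end Pool.JM.Tab85
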