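import Pool.Agent.Work.MP_46fa68_85t.DA40_20
import Pool.Agent.Work.MP_46fa68_85t.DB40_20
import Pool.Agent.Work.MP_46fa68_85t.DC40_20

/-!
# MP_46fa68_co: pointwise check for S_41, t = 20

The data were found numerically (helper12's solver), rounded and repaired in exact arithmetic.
-/

set_option autoImplicit false

namespace Pool.JM.Tab85

open Pool.JM.Pack

theorem cR40_20 : cB W40_20 169 81 40 600000000000 tA40_20 tB40_20 tC40_20 = true := by
  decide +kernel

theorem cO40_20 : Nat.beq (Nat.mul U40_20 126000000) (Nat.mul 600000000000 335367096786357081410764800000) = true := by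
  decide +kernel


end Pool.JM.Tab85
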