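import Pool.Agent.Work.MP_46fa68_85t.CA40_20
import Pool.Agent.Work.MP_46fa68_85t.CB40_20
import Pool.Agent.Work.MP_46fa68_85t.CC40_20
import Pool.Agent.Work.MP_46fa68_85t.CR40_20
import Pool.Agent.Work.MP_46fa68_48c.TwoTab

/-!
# MP_46fa68_co: two-class certificates for S_41, t = 20

The data were found numerically (helper12's solver), rounded and repaired in exact arithmetic.
-/

set_option autoImplicit false

namespace Pool.JM.Tab85

open Pool.JM.Pack

open Pool.TW

theorem tcs40_20 : TCs (20 + 19) 20 (19 + 1) (142882 : ℕ) (((0 : ℕ) : ℝ) - (119443 : ℕ))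
    ((((126000000 : ℕ) : ℝ) - (119672973 : ℕ)) / ((20 : ℕ) + 1)) ((((17958696 : ℕ) : ℝ) - (0 : ℕ)) / ((20 : ℕ) + 1)) (3542235 : ℕ)
    (((0 : ℕ) : ℝ) - (4176460 : ℕ)) :=
  TCs_of_tab_neg cP40_20 cA40_20 cB40_20 cC40_20 cR40_20 (R := 335367096786357081410764800000) (by norm_num [Nat.factorial]) cO40_20
    (by norm_num) (by norm_num)


end Pool.JM.Tab85
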