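import Pool.Agent.Work.MP_46fa68_85t.DC42_21

/-!
# MP_46fa68_co: checks for S_43, t = 21

The data were found numerically (helper12's solver), rounded and repaired in exact arithmetic.
-/

set_option autoImplicit false

namespace Pool.JM.Tab85

open Pool.JM.Pack

theorem cC42_21 : cL W42_21 177 85 22 20 5462865408 (Nat.mul U42_21 3777740) (Nat.mul U42_21 0)
    (Nat.mul U42_21 4297306) tC42_21 = true := by
  decide +kernel


end Pool.JM.Tab85
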