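import Pool.Agent.Work.MP_46fa68_85t.DA42_21
import Pool.Agent.Work.MP_46fa68_85t.DB42_21
import Pool.Agent.Work.MP_46fa68_85t.DC42_21

/-!
# MP_46fa68_co: pointwise check for S_43, t = 21

The data were found numerically (helper12's solver), rounded and repaired in exact arithmetic.
-/

set_option autoImplicit false

namespace Pool.JM.Tab85

open Pool.JM.Pack

theorem cR42_21 : cB W42_21 177 85 42 700000000000 tA42_21 tB42_21 tC42_21 = true := by
  decide +kernel

theorem cO42_21 : Nat.beq (Nat.mul U42_21 154000000) (Nat.mul 700000000000 27500101936481280675682713600000) = true := by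
  decide +kernel


end Pool.JM.Tab85
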