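import Pool.Agent.Work.MP_46fa68_85t.CA42_21
import Pool.Agent.Work.MP_46fa68_85t.CB42_21
import Pool.Agent.Work.MP_46fa68_85t.CC42_21
import Pool.Agent.Work.MP_46fa68_85t.CR42_21
import Pool.Agent.Work.MP_46fa68_48c.TwoTab

/-!
# MP_46fa68_co: two-class certificates for S_43, t = 21

The data were found numerically (helper12's solver), rounded and repaired in exact arithmetic.
-/

set_option autoImplicit false

namespace Pool.JM.Tab85

open Pool.JM.Pack

open Pool.TW

theorem tcs42_21 : TCs (21 + 20) 21 (20 + 1) (148244 : ℕ) (((0 : ℕ) : ℝ) - (119758 : ℕ))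
    ((((154000000 : ℕ) : ℝ) - (147204882 : ℕ)) / ((21 : ℕ) + 1)) ((((19794236 : ℕ) : ℝ) - (0 : ℕ)) / ((21 : ℕ) + 1)) (3777740 : ℕ)
    (((0 : ℕ) : ℝ) - (4297306 : ℕ)) :=
  TCs_of_tab_neg cP42_21 cA42_21 cB42_21 cC42_21 cR42_21 (R := 27500101936481280675682713600000) (by norm_num [Nat.factorial]) cO42_21
    (by norm_num) (by norm_num)


end Pool.JM.Tab85
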