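import Pool.Agent.Work.MP_46fa68_85t.DA40_20

/-!
# MP_46fa68_co: checks for S_41, t = 20

The data were found numerically (helper12's solver), rounded and repaired in exact arithmetic.
-/

set_option autoImplicit false

namespace Pool.JM.Tab85

open Pool.JM.Pack

theorem cP40_20 : cP2 W40_20 169 81 20 20 1118939184 U40_20 142882 0 119443 119672973 0 17958696
    3542235 0 4176460 = true := by
  decide +kernel

theorem cA40_20 : cL W40_20 169 81 21 19 1118939184 (Nat.mul U40_20 142882) (Nat.mul U40_20 0)
    (Nat.mul U40_20 119443) tA40_20 = true := by
  decide +kernel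


end Pool.JM.Tab85
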