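import Pool.Agent.Work.MP_46fa68_48c.Chk2

/-!
# MP_46fa68_co: constants of the packed tables for S_41, t = 20, two-class form

The data were found numerically (helper12's solver), rounded and repaired in exact arithmetic.
-/

set_option autoImplicit false

namespace Pool.JM.Tab85

open Pool.JM.Pack

/-- scale of the digits -/
noncomputable def W40_20 : ℕ := 95780971304118053647396689196894323976171195136475136

/-- unit -/
noncomputable def U40_20 : ℕ := 1596986175173128959098880000000000


end Pool.JM.Tab85
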