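import Pool.Agent.Work.MP_46fa68_48c.Chk2

/-!
# MP_46fa68_co: constants of the packed tables for S_43, t = 21, two-class form

The data were found numerically (helper12's solver), rounded and repaired in exact arithmetic.
-/

set_option autoImplicit false

namespace Pool.JM.Tab85

open Pool.JM.Pack

/-- scale of the digits -/
noncomputable def W42_21 : ℕ := 24519928653854221733733552434404946937899825954937634816

/-- unit -/
noncomputable def U42_21 : ℕ := 125000463347642184889466880000000000


end Pool.JM.Tab85
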